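import Pool.Agent.H35.K2S.LineU
import Pool.Agent.H64.K2.Plk

/-!
# Strips in plank coordinates: nonconcentration of the velocity block

`D` is the direction, `D''` the direction in the coordinates of a plank with slope `ζ` which is
thin by the factor `σ`. If the directions at the exact points are concentrated neither on lines
(of the chart `i₀`) nor on balls, then the directions `D''` are not concentrated on strips, given
any label which is a function of the exact point and determines the plank.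
-/

set_option autoImplicit false

namespace Pool.K2S

open Finset Real
open Pool.Agent.H49.Ent Pool.Agent.H32.Dense Pool.STK Pool.KA

variable {Ω U Λ S' S T : Type} [Fintype Ω]

/-- An event on which the values are related to one value has small conditional probability. -/
theorem NonConc.event_le {p : Ω → ℝ} (hp : IsLaw p) {c : Ω → S'} {g : Ω → U} {Lab : Ω → Λ}
    {r : S' → S → Prop} {ρ : ℝ} (h : NonConc p c g r ρ) (hdet : Det p g Lab) {E : Ω → Prop}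
    (inst : DecidablePred E) {ω : Ω} (hω : 0 < p ω) (s : S)
    (hE : ∀ ω', 0 < p ω' → Lab ω' = Lab ω → E ω' → r (c ω') s) :
    ∑ ω', (if E ω' then Pool.Agent.H49.Ent.cond p Lab (Lab ω) ω' else 0) ≤ ρ := by
  classical
  refine le_trans (Finset.sum_le_sum fun ω' _ => ?_) ((h.coarse hp hdet).cond_le hp hω s)
  have h0 : 0 ≤ Pool.Agent.H49.Ent.cond p Lab (Lab ω) ω' := cond_nonneg hp.nonneg _ _ _
  by_cases h1 : E ω'
  · rw [if_pos h1]
    by_cases h2 : r (c ω') s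
    · rw [if_pos h2]
    · rw [if_neg h2]
      unfold Pool.Agent.H49.Ent.cond
      by_cases h3 : Lab ω' = Lab ω
      · rw [if_pos h3]
        rcases (hp.nonneg ω').lt_or_eq with h4 | h4
        · exact absurd (hE ω' h4 h3 h1) h2
        · rw [← h4, zero_div]
      · rw [if_neg h3]
  · rw [if_neg h1]
    split_ifs
    exacts [h0, le_rfl]

/-- The relation of lines in the chart `i₀`, of any slope. -/
def lnR {m : ℕ} (i₀ : Fin m) (r : ℝ) (D : Fin m → ℝ) (s : (Fin m → ℝ) × (Fin m → ℝ)) : Prop :=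
  ∀ j, |D j - s.1 j * D i₀ - s.2 j| ≤ r

/-- The relation of balls. -/
def blR {m : ℕ} (r : ℝ) (D v : Fin m → ℝ) : Prop := ∀ j, |D j - v j| ≤ r

theorem fin2_cases {i₀ j₁ : Fin 2} (hij : j₁ ≠ i₀) (j : Fin 2) : j = i₀ ∨ j = j₁ := by
  have a1 := j.isLt
  have a2 := i₀.isLt
  have a3 := j₁.isLt
  have a4 : (j₁ : ℕ) ≠ i₀ := fun h => hij (Fin.ext h)
  rcases Nat.lt_or_ge (j : ℕ) (i₀ : ℕ) with h | h
  · right; exact Fin.ext (by omega)
  · rcases Nat.lt_or_ge (i₀ : ℕ) (j : ℕ) with h' | h'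
    · right; exact Fin.ext (by omega)
    · left; exact Fin.ext (by omega)

/-- **Strips.** -/
theorem strip_le {p : Ω → ℝ} (hp : IsLaw p) {D D'' : Ω → Fin 2 → ℝ} {pt : Ω → U}
    {Lab : Ω → Λ} {i₀ j₁ : Fin 2} (hij : j₁ ≠ i₀) {σ r₀ r₁ ρ β : ℝ} (hσ : 1 ≤ σ)
    {ζ κ₀ κ₁ : Ω → ℝ} (hζ : ∀ ω, 0 < p ω → |ζ ω| ≤ β)
    (hlab : ∀ ω ω', 0 < p ω → 0 < p ω' → Lab ω = Lab ω' → ζ ω = ζ ω' ∧ κ₀ ω = κ₀ ω' ∧ κ₁ ω = κ₁ ω')
    (h1 : ∀ ω, 0 < p ω → D'' ω i₀ = D ω i₀ - κ₁ ω)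
    (h2 : ∀ ω, 0 < p ω → D'' ω j₁ = σ * (D ω j₁ - ζ ω * D ω i₀) - κ₀ ω)
    (h3 : ∀ ω, 0 < p ω → |D'' ω j₁| ≤ 1) (hdet : Det p pt Lab)
    (hL : NonConc p D pt (lnR i₀ r₁) ρ) (hB : NonConc p D pt (blR r₀) ρ) {ε s : ℝ}
    (hs : 1 ≤ s) (hε : 0 ≤ ε) (hε1 : ε ≤ 1) (h4 : (1 + s) * ε ≤ σ * r₁)
    (h5 : (1 + β) * (4 / s + 2 * ε) + 2 / σ ≤ r₀) (ω : Ω) (hω : 0 < p ω) (v : Fin 2 → ℝ)
    (B : Fin 1 → Fin 2 → ℝ)
    (inst : DecidablePred fun ω' => ∃ c : Fin 1 → ℝ, ∀ j,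
      |D'' ω' j - v j - ∑ i, c i * B i j| ≤ ε) :
    ∑ ω', (@ite ℝ (∃ c : Fin 1 → ℝ, ∀ j, |D'' ω' j - v j - ∑ i, c i * B i j| ≤ ε) (inst ω')
      (Pool.Agent.H49.Ent.cond p Lab (Lab ω) ω') 0) ≤ ρ := by
  have hs0 : 0 < s := by linarith
  have hσ0 : 0 < σ := by linarith
  have hj := fin2_cases hij
  set b := B 0 with hb
  have hc : ∀ ω' : Ω, (∃ c : Fin 1 → ℝ, ∀ j, |D'' ω' j - v j - ∑ i, c i * B i j| ≤ ε) →
      ∃ c : ℝ, |D'' ω' i₀ - v i₀ - c * b i₀| ≤ ε ∧ |D'' ω' j₁ - v j₁ - c * b j₁| ≤ ε := by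
    rintro ω' ⟨c, hc⟩
    refine ⟨c 0, ?_, ?_⟩
    · have := hc i₀
      rwa [Fin.sum_univ_one] at this
    · have := hc j₁
      rwa [Fin.sum_univ_one] at this
  rcases le_or_gt (|b j₁|) (s * |b i₀|) with hcase | hcase
  · rcases eq_or_ne (b i₀) 0 with hb0 | hb0
    · -- the strip is a small ball
      have hb1 : b j₁ = 0 := by
        rw [hb0, abs_zero, mul_zero] at hcase
        exact abs_nonpos_iff.mp hcase
      refine hL.event_le hp hdet inst hω (fun j => if j = i₀ then 1 else ζ ω,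
        fun j => if j = i₀ then 0 else (v j₁ + κ₀ ω) / σ) ?_
      intro ω' hω' hl hE
      obtain ⟨l1, l2, l3⟩ := hlab ω' ω hω' hω hl
      obtain ⟨c, -, c2⟩ := hc ω' hE
      intro j
      rcases hj j with rfl | rfl
      · simp only [if_true]
        have : D ω' j - 1 * D ω' j - 0 = 0 := by ring
        rw [this, abs_zero]
        have : 0 ≤ (1 + s) * ε := by positivity
        nlinarith
      · simp only [hij, if_false]
        rw [hb1, mul_zero, sub_zero, h2 ω' hω', l1, l2] at c2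
        have e1 : D ω' j - ζ ω * D ω' i₀ - (v j + κ₀ ω) / σ =
            (σ * (D ω' j - ζ ω * D ω' i₀) - κ₀ ω - v j) / σ := by
          field_simp
          ring
        rw [e1, abs_div, abs_of_pos hσ0, div_le_iff₀ hσ0]
        have : s * ε ≥ 0 := by positivity
        nlinarith
    · -- a strip of moderate slope
      set μ := b j₁ / b i₀ with hμ
      have hμs : |μ| ≤ s := by
        rw [hμ, abs_div, div_le_iff₀ (abs_pos.mpr hb0)]
        exact hcase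
      refine hL.event_le hp hdet inst hω (fun j => if j = i₀ then 1 else ζ ω + μ / σ,
        fun j => if j = i₀ then 0 else (v j₁ + κ₀ ω - μ * (v i₀ + κ₁ ω)) / σ) ?_
      intro ω' hω' hl hE
      obtain ⟨l1, l2, l3⟩ := hlab ω' ω hω' hω hl
      obtain ⟨c, c1, c2⟩ := hc ω' hE
      intro j
      rcases hj j with rfl | rfl
      · simp only [if_true]
        have : D ω' j - 1 * D ω' j - 0 = 0 := by ring
        rw [this, abs_zero]
        have : 0 ≤ (1 + s) * ε := by positivity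
        nlinarith
      · simp only [hij, if_false]
        have e1 : D ω' j - (ζ ω + μ / σ) * D ω' i₀ -
            (v j + κ₀ ω - μ * (v i₀ + κ₁ ω)) / σ =
            ((D'' ω' j - v j - c * b j) - μ * (D'' ω' i₀ - v i₀ - c * b i₀)) / σ := by
          have e2 : c * b j = μ * (c * b i₀) := by
            rw [hμ]
            field_simp
          rw [h2 ω' hω', h1 ω' hω', l1, l2, l3, e2]
          field_simp
          ring
        rw [e1, abs_div, abs_of_pos hσ0, div_le_iff₀ hσ0]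
        have a1 := abs_sub (D'' ω' j - v j - c * b j) (μ * (D'' ω' i₀ - v i₀ - c * b i₀))
        rw [abs_mul] at a1
        have a2 : |μ| * |D'' ω' i₀ - v i₀ - c * b i₀| ≤ s * ε :=
          mul_le_mul hμs c1 (abs_nonneg _) hs0.le
        linarith
  · -- a steep strip
    by_cases hex : ∃ ω₁, 0 < p ω₁ ∧ Lab ω₁ = Lab ω ∧
        ∃ c : Fin 1 → ℝ, ∀ j, |D'' ω₁ j - v j - ∑ i, c i * B i j| ≤ ε
    · obtain ⟨ω₁, hω₁, hl₁, hE₁⟩ := hex
      refine hB.event_le hp hdet inst hω (D ω₁) ?_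
      intro ω' hω' hl hE
      obtain ⟨l1, l2, l3⟩ := hlab ω' ω₁ hω' hω₁ (hl.trans hl₁.symm)
      obtain ⟨c, c1, c2⟩ := hc ω' hE
      obtain ⟨c', c1', c2'⟩ := hc ω₁ hE₁
      have hbj : 0 < |b j₁| := lt_of_le_of_lt (by positivity) hcase
      -- the parameters are close
      have k1 : |c - c'| * |b j₁| ≤ 2 + 2 * ε := by
        rw [← abs_mul]
        have e1 : (c - c') * b j₁ = (D'' ω' j₁ - D'' ω₁ j₁) -
            ((D'' ω' j₁ - v j₁ - c * b j₁) - (D'' ω₁ j₁ - v j₁ - c' * b j₁)) := by ring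
        rw [e1]
        have b1 := h3 ω' hω'
        have b2 := h3 ω₁ hω₁
        rw [abs_le] at *
        constructor <;> linarith [b1.1, b1.2, b2.1, b2.2, c2.1, c2.2, c2'.1, c2'.2]
      have k2 : |(c - c') * b i₀| ≤ 4 / s := by
        rw [abs_mul, le_div_iff₀ hs0]
        have : |c - c'| * |b i₀| * s ≤ |c - c'| * |b j₁| := by
          have := mul_le_mul_of_nonneg_left hcase.le (abs_nonneg (c - c'))
          linarith
        linarith
      have k3 : |D ω' i₀ - D ω₁ i₀| ≤ 4 / s + 2 * ε := by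
        have e1 : D ω' i₀ - D ω₁ i₀ = (c - c') * b i₀ +
            ((D'' ω' i₀ - v i₀ - c * b i₀) - (D'' ω₁ i₀ - v i₀ - c' * b i₀)) := by
          rw [h1 ω' hω', h1 ω₁ hω₁, l3]; ring
        rw [e1]
        rw [abs_le] at *
        constructor <;> linarith [k2.1, k2.2, c1.1, c1.2, c1'.1, c1'.2]
      have hβ : 0 ≤ β := (abs_nonneg _).trans (hζ ω hω)
      have k4 : |D ω' j₁ - D ω₁ j₁| ≤ β * (4 / s + 2 * ε) + 2 / σ := by
        have e1 : D ω' j₁ - D ω₁ j₁ = ζ ω₁ * (D ω' i₀ - D ω₁ i₀) +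
            (D'' ω' j₁ - D'' ω₁ j₁) / σ := by
          rw [h2 ω' hω', h2 ω₁ hω₁, l1, l2]
          field_simp
          ring
        rw [e1]
        refine (abs_add_le _ _).trans (add_le_add ?_ ?_)
        · rw [abs_mul]
          exact mul_le_mul (hζ ω₁ hω₁) k3 (abs_nonneg _) hβ
        · rw [abs_div, abs_of_pos hσ0]
          refine div_le_div_of_nonneg_right ?_ hσ0.le
          have b1 := h3 ω' hω'
          have b2 := h3 ω₁ hω₁
          rw [abs_le] at *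
          constructor <;> linarith [b1.1, b1.2, b2.1, b2.2]
      have k5 : 0 ≤ β * (4 / s + 2 * ε) := by positivity
      have k6 : 0 ≤ 2 / σ := by positivity
      have k7 : (1 + β) * (4 / s + 2 * ε) = (4 / s + 2 * ε) + β * (4 / s + 2 * ε) := by ring
      have k8 : 0 ≤ 4 / s + 2 * ε := by positivity
      intro j
      rcases hj j with rfl | rfl
      · linarith
      · linarith
    · -- the strip is empty
      refine hB.event_le hp hdet inst hω (D ω) ?_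
      intro ω' hω' hl hE
      exact absurd ⟨ω', hω', hl, hE⟩ hex

/-- **Intervals.** The one-dimensional version: the label determines the direction across the plank
up to `1 / σ`. -/
theorem interval_le {p : Ω → ℝ} (hp : IsLaw p) {D : Ω → Fin 2 → ℝ} {D'' : Ω → Fin 1 → ℝ}
    {pt : Ω → U} {Lab : Ω → Λ} {i₀ j₁ : Fin 2} (hij : j₁ ≠ i₀) {σ r₀ ρ β : ℝ} (hσ : 0 < σ)
    {ζ κ₀ κ₁ : Ω → ℝ} (hζ : ∀ ω, 0 < p ω → |ζ ω| ≤ β)
    (hlab : ∀ ω ω', 0 < p ω → 0 < p ω' → Lab ω = Lab ω' → ζ ω = ζ ω' ∧ κ₀ ω = κ₀ ω' ∧ κ₁ ω = κ₁ ω')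
    (h1 : ∀ ω, 0 < p ω → D'' ω 0 = D ω i₀ - κ₁ ω)
    (h3 : ∀ ω, 0 < p ω → |σ * (D ω j₁ - ζ ω * D ω i₀) - κ₀ ω| ≤ 1)
    (hdet : Det p pt Lab) (hB : NonConc p D pt (blR r₀) ρ) {ε : ℝ}
    (hε : 0 ≤ ε) (h5 : (1 + β) * (2 * ε) + 2 / σ ≤ r₀) (ω : Ω) (hω : 0 < p ω)
    (v : Fin 1 → ℝ) (B : Fin 0 → Fin 1 → ℝ)
    (inst : DecidablePred fun ω' => ∃ c : Fin 0 → ℝ, ∀ j,
      |D'' ω' j - v j - ∑ i, c i * B i j| ≤ ε) :
    ∑ ω', (@ite ℝ (∃ c : Fin 0 → ℝ, ∀ j, |D'' ω' j - v j - ∑ i, c i * B i j| ≤ ε) (inst ω')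
      (Pool.Agent.H49.Ent.cond p Lab (Lab ω) ω') 0) ≤ ρ := by
  have hj := fin2_cases hij
  have hc : ∀ ω' : Ω, (∃ c : Fin 0 → ℝ, ∀ j, |D'' ω' j - v j - ∑ i, c i * B i j| ≤ ε) →
      |D'' ω' 0 - v 0| ≤ ε := by
    rintro ω' ⟨c, hc⟩
    have := hc 0
    rwa [Finset.univ_eq_empty, Finset.sum_empty, sub_zero] at this
  by_cases hex : ∃ ω₁, 0 < p ω₁ ∧ Lab ω₁ = Lab ω ∧
      ∃ c : Fin 0 → ℝ, ∀ j, |D'' ω₁ j - v j - ∑ i, c i * B i j| ≤ ε
  · obtain ⟨ω₁, hω₁, hl₁, hE₁⟩ := hex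
    refine hB.event_le hp hdet inst hω (D ω₁) ?_
    intro ω' hω' hl hE
    obtain ⟨l1, l2, l3⟩ := hlab ω' ω₁ hω' hω₁ (hl.trans hl₁.symm)
    have c1 := hc ω' hE
    have c1' := hc ω₁ hE₁
    have hβ : 0 ≤ β := (abs_nonneg _).trans (hζ ω hω)
    have k3 : |D ω' i₀ - D ω₁ i₀| ≤ 2 * ε := by
      rw [h1 ω' hω', l3] at c1
      rw [h1 ω₁ hω₁] at c1'
      rw [abs_le] at *
      constructor <;> linarith [c1.1, c1.2, c1'.1, c1'.2]
    have k4 : |D ω' j₁ - D ω₁ j₁| ≤ β * (2 * ε) + 2 / σ := by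
      have b1 := h3 ω' hω'
      have b2 := h3 ω₁ hω₁
      rw [l1, l2] at b1
      have e1 : D ω' j₁ - D ω₁ j₁ = ζ ω₁ * (D ω' i₀ - D ω₁ i₀) +
          ((σ * (D ω' j₁ - ζ ω₁ * D ω' i₀) - κ₀ ω₁) -
            (σ * (D ω₁ j₁ - ζ ω₁ * D ω₁ i₀) - κ₀ ω₁)) / σ := by
        field_simp
        ring
      rw [e1]
      refine (abs_add_le _ _).trans (add_le_add ?_ ?_)
      · rw [abs_mul]
        exact mul_le_mul (hζ ω₁ hω₁) k3 (abs_nonneg _) hβ
      · rw [abs_div, abs_of_pos hσ]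
        refine div_le_div_of_nonneg_right ?_ hσ.le
        rw [abs_le] at *
        constructor <;> linarith [b1.1, b1.2, b2.1, b2.2]
    have k5 : 0 ≤ β * (2 * ε) := by positivity
    have k6 : 0 ≤ 2 / σ := by positivity
    have k7 : (1 + β) * (2 * ε) = 2 * ε + β * (2 * ε) := by ring
    intro j
    rcases hj j with rfl | rfl
    · linarith
    · linarith
  · refine hB.event_le hp hdet inst hω (D ω) ?_
    intro ω' hω' hl hE
    exact absurd ⟨ω', hω', hl, hE⟩ hex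

/-! ### The plank family -/

section Plk

variable {J : ℕ}

/-- The directions of the plank family in terms of the directions. -/
theorem plk_d {m : ℕ} (F : Fam m J) (w lam : ℕ) (i0 : Fin m) (z : F.Ω → Fin m → ℝ) (ω : F.Ω)
    (i : Fin m) : (F.plk w lam i0 z).d ω i =
      pco lam i0 (z ω) (F.d ω) i - (F.pvl lam i0 z ω i : ℝ) := by
  change Int.fract (pco lam i0 (z ω) (F.d ω) i) = _
  have e : (F.pvl lam i0 z ω i : ℤ) = ⌊pco lam i0 (z ω) (F.d ω) i⌋ := by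
    change ⌊(2 : ℝ) ^ 0 * pco lam i0 (z ω) (F.d ω) i⌋ = _
    rw [pow_zero, one_mul]
  rw [e]
  rfl

/-- **Row FFS**: if the directions at the exact points are concentrated neither on lines (to the
precision `r₁`) nor on balls (of radius `r₀`), the directions of the plank family are not
concentrated on strips, given any label which is a function of the exact point and determines the
frame and the cell of the velocity. -/
theorem plk_strip (F : Fam 2 J) {w lam : ℕ} {i₀ j₁ : Fin 2} (hij : j₁ ≠ i₀)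
    {z : F.Ω → Fin 2 → ℝ} {β : ℝ} (hz : ∀ ω, 0 < F.p ω → |z ω j₁| ≤ β) {pt : F.Ω → U}
    {Lab : F.Ω → Λ} (hlab : Det F.p Lab (fun ω => (z ω, F.pvl lam i₀ z ω)))
    (hdet : Det F.p pt Lab) {r₀ r₁ ρ : ℝ} (hL : NonConc F.p F.d pt (lnR i₀ r₁) ρ)
    (hB : NonConc F.p F.d pt (blR r₀) ρ) {h : ℕ} (hh : 2 ≤ h) {s : ℝ} (hs : 1 ≤ s)
    (h4 : (1 + s) * (4 / 2 ^ h) ≤ 2 ^ lam * r₁)
    (h5 : (1 + β) * (4 / s + 2 * (4 / 2 ^ h)) + 2 / 2 ^ lam ≤ r₀) (ω : F.Ω) (hω : 0 < F.p ω)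
    (v : Fin 2 → ℝ) (B : Fin 1 → Fin 2 → ℝ)
    (inst : DecidablePred fun ω' => ∃ c : Fin 1 → ℝ, ∀ j,
      |(F.plk w lam i₀ z).d ω' j - v j - ∑ i, c i * B i j| ≤ 4 / 2 ^ h) :
    ∑ ω', (@ite ℝ (∃ c : Fin 1 → ℝ, ∀ j,
      |(F.plk w lam i₀ z).d ω' j - v j - ∑ i, c i * B i j| ≤ 4 / 2 ^ h) (inst ω')
      (Pool.Agent.H49.Ent.cond F.p Lab (Lab ω) ω') 0) ≤ ρ := by
  have hl : ∀ ω ω' : F.Ω, 0 < F.p ω → 0 < F.p ω' → Lab ω = Lab ω' →
      z ω = z ω' ∧ F.pvl lam i₀ z ω = F.pvl lam i₀ z ω' := by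
    intro ω ω' h1 h2 h3
    exact Prod.ext_iff.mp (hlab ω ω' h1 h2 h3)
  refine strip_le F.isLaw (D := F.d) (D'' := (F.plk w lam i₀ z).d) hij
    (σ := 2 ^ lam) (one_le_pow₀ (by norm_num)) (ζ := fun ω => z ω j₁)
    (κ₀ := fun ω => (F.pvl lam i₀ z ω j₁ : ℝ)) (κ₁ := fun ω => (F.pvl lam i₀ z ω i₀ : ℝ))
    hz ?_ ?_ ?_ ?_ hdet hL hB hs (by positivity) ?_ h4 h5 ω hω v B inst
  · intro ω ω' h1 h2 h3
    obtain ⟨a1, a2⟩ := hl ω ω' h1 h2 h3
    exact ⟨congrFun a1 j₁, by rw [a2], by rw [a2]⟩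
  · intro ω _
    rw [plk_d]
    unfold pco
    rw [if_pos rfl]
  · intro ω _
    rw [plk_d]
    unfold pco
    rw [if_neg hij]
  · intro ω _
    exact (F.plk w lam i₀ z).dir ω j₁
  · rw [div_le_one (by positivity)]
    calc (4 : ℝ) = 2 ^ 2 := by norm_num
      _ ≤ 2 ^ h := pow_le_pow_right₀ (by norm_num) hh

/-- **Row FFS**, one-dimensional part: any family of dimension one whose directions are the
coordinate `i₀` of the directions up to a function of the label. -/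
theorem pj_interval (F : Fam 2 J) {lam : ℕ} {i₀ j₁ : Fin 2} (hij : j₁ ≠ i₀)
    {z : F.Ω → Fin 2 → ℝ} {β : ℝ} (hz : ∀ ω, 0 < F.p ω → |z ω j₁| ≤ β) {pt : F.Ω → U}
    {Lab : F.Ω → Λ} {D'' : F.Ω → Fin 1 → ℝ} {κ₁ : F.Ω → ℝ}
    (hD : ∀ ω, 0 < F.p ω → D'' ω 0 = F.d ω i₀ - κ₁ ω)
    (hlab : Det F.p Lab (fun ω => (z ω, F.pvl lam i₀ z ω j₁, κ₁ ω)))
    (hdet : Det F.p pt Lab) {r₀ ρ : ℝ} (hB : NonConc F.p F.d pt (blR r₀) ρ) {h : ℕ}
    (h5 : (1 + β) * (2 * (4 / 2 ^ h)) + 2 / 2 ^ lam ≤ r₀) (ω : F.Ω) (hω : 0 < F.p ω)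
    (v : Fin 1 → ℝ) (B : Fin 0 → Fin 1 → ℝ)
    (inst : DecidablePred fun ω' => ∃ c : Fin 0 → ℝ, ∀ j,
      |D'' ω' j - v j - ∑ i, c i * B i j| ≤ 4 / 2 ^ h) :
    ∑ ω', (@ite ℝ (∃ c : Fin 0 → ℝ, ∀ j,
      |D'' ω' j - v j - ∑ i, c i * B i j| ≤ 4 / 2 ^ h) (inst ω')
      (Pool.Agent.H49.Ent.cond F.p Lab (Lab ω) ω') 0) ≤ ρ := by
  have hl : ∀ ω ω' : F.Ω, 0 < F.p ω → 0 < F.p ω' → Lab ω = Lab ω' →
      z ω = z ω' ∧ F.pvl lam i₀ z ω j₁ = F.pvl lam i₀ z ω' j₁ ∧ κ₁ ω = κ₁ ω' := by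
    intro ω ω' h1 h2 h3
    have := hlab ω ω' h1 h2 h3
    simp only [Prod.mk.injEq] at this
    exact this
  refine interval_le F.isLaw (D := F.d) (D'' := D'') hij
    (σ := 2 ^ lam) (by positivity) (ζ := fun ω => z ω j₁)
    (κ₀ := fun ω => (F.pvl lam i₀ z ω j₁ : ℝ)) (κ₁ := κ₁)
    hz ?_ hD ?_ hdet hB (by positivity) h5 ω hω v B inst
  · intro ω ω' h1 h2 h3
    obtain ⟨a1, a2, a3⟩ := hl ω ω' h1 h2 h3
    exact ⟨congrFun a1 j₁, by rw [a2], a3⟩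
  · intro ω _
    have h1 := (F.plk 0 lam i₀ z).dir ω j₁
    rw [plk_d] at h1
    unfold pco at h1
    rwa [if_neg hij] at h1

end Plk

/-! ### Nonconcentration on lines and balls from stability -/

omit [Fintype Ω] in
/-- The relation `lnR` is the one of `LineU`. -/
theorem lineU_fn {m : ℕ} (i₀ : Fin m) (r : ℝ) (pt : Ω → U) (d : Ω → Fin m → ℝ) (A : Ω → Prop) :
    LineU i₀ r pt d A ↔ Fn d pt (lnR i₀ r) A := lineU_iff i₀ r pt d A

omit [Fintype Ω] in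
theorem lineU_fn' {m : ℕ} (i₀ : Fin m) (r : ℝ) (pt : Ω → U) (d : Ω → Fin m → ℝ) :
    LineU i₀ r pt d = Fn d pt (lnR i₀ r) := by
  funext A
  exact propext (lineU_fn i₀ r pt d A)

omit [Fintype Ω] in
theorem ball_fn' {m : ℕ} (r : ℝ) (pt : Ω → U) (d : Ω → Fin m → ℝ) :
    Ball r pt d = Fn d pt (blR r) := rfl

theorem NonConc.mono {q : Ω → ℝ} (hq : IsLaw q) {c : Ω → S'} {g : Ω → T} {r : S' → S → Prop}
    {ρ ρ' : ℝ} (h : NonConc q c g r ρ) (hρ : ρ ≤ ρ') : NonConc q c g r ρ' := by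
  intro ω hω s
  exact (h ω hω s).trans (mul_le_mul_of_nonneg_right hρ (law_nonneg hq.nonneg g _))

/-- Removing whole fibres does not change the conditional laws. -/
theorem NonConc.fibres {p : Ω → ℝ} (hp : IsLaw p) {c : Ω → S'} {g : Ω → T} {r : S' → S → Prop}
    {ρ : ℝ} {A A' : Ω → Prop} (hA : 0 < Pe p A) (hA' : 0 < Pe p A') {G : T → Prop}
    (hG : ∀ ω, A' ω ↔ A ω ∧ G (g ω))
    (h : NonConc (Pool.Agent.H49.Ent.cond p A True) c g r ρ) :
    NonConc (Pool.Agent.H49.Ent.cond p A' True) c g r ρ := by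
  classical
  set q := Pool.Agent.H49.Ent.cond p A True with hq
  have hfib : ∀ ω₀, A' ω₀ → ∀ ω, g ω = g ω₀ →
      Pool.Agent.H49.Ent.cond p A' True ω = Pe p A / Pe p A' * q ω := by
    intro ω₀ h0 ω hω
    have hGω : G (g ω) := by rw [hω]; exact ((hG ω₀).1 h0).2
    rw [hq]
    unfold Pool.Agent.H49.Ent.cond
    by_cases hAω : A ω
    · have h1 : A' ω := (hG ω).2 ⟨hAω, hGω⟩
      rw [if_pos (by simp [h1]), if_pos (by simp [hAω])]
      rw [div_mul_div_comm, mul_comm (Pe p A), mul_div_mul_right _ _ hA.ne']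
    · have h1 : ¬ A' ω := fun h => hAω ((hG ω).1 h).1
      rw [if_neg (by simp [h1]), if_neg (by simp [hAω]), mul_zero]
  intro ω hω s
  have hω' := (cond_pos_iff hp.nonneg A' True ω).1 hω
  have hωA : A' ω := by simpa using hω'.2
  have e1 : mas (Pool.Agent.H49.Ent.cond p A' True) c g r (g ω) s =
      Pe p A / Pe p A' * mas q c g r (g ω) s := by
    unfold mas
    rw [Pe_eq (Pool.Agent.H49.Ent.cond p A' True), Pe_eq q, Finset.mul_sum]
    refine Finset.sum_congr rfl fun w _ => ?_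
    by_cases h : g w = g ω ∧ r (c w) s
    · rw [if_pos h, if_pos h, hfib ω hωA w h.1]
    · rw [if_neg h, if_neg h, mul_zero]
  have e2 : law (Pool.Agent.H49.Ent.cond p A' True) g (g ω) =
      Pe p A / Pe p A' * law q g (g ω) := by
    rw [law_eq_sum (Pool.Agent.H49.Ent.cond p A' True), law_eq_sum q, Finset.mul_sum]
    refine Finset.sum_congr rfl fun w _ => ?_
    by_cases h : g w = g ω
    · rw [if_pos h, if_pos h, hfib ω hωA w h]
    · rw [if_neg h, if_neg h, mul_zero]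
  have hqω : 0 < q ω := (cond_pos_iff hp.nonneg A True ω).2
    ⟨hω'.1, by simpa using ((hG ω).1 hωA).1⟩
  have e3 := h ω hqω s
  rw [e1, e2]
  have h5 : 0 ≤ Pe p A / Pe p A' := div_nonneg hA.le hA'.le
  nlinarith

/-- **Two properties at once.** If neither `c₁` nor `c₂` is a function of `g` (up to the relations)
on the stable event `A`, then on a part of `A` of mass at least one quarter both are nonconcentrated
given `g`. The part is a union of fibres of `g`. -/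
theorem clean_two {S₁ S₂ S₁' S₂' : Type} [Nonempty S₁] [Nonempty S₂] {p : Ω → ℝ} (hp : IsLaw p)
    {κ : ℝ} (hκ : 3 * Real.log 2 ≤ κ) {A : Ω → Prop} (hA : 0 < Pe p A) {c₁ : Ω → S₁'}
    {c₂ : Ω → S₂'} {g : Ω → T} {r₁ : S₁' → S₁ → Prop} {r₂ : S₂' → S₂ → Prop}
    (hs₁ : Stb p κ A (Fn c₁ g r₁)) (hn₁ : ¬ Fn c₁ g r₁ A)
    (hs₂ : Stb p κ A (Fn c₂ g r₂)) (hn₂ : ¬ Fn c₂ g r₂ A) :
    ∃ G : T → Prop, ∃ A' : Ω → Prop, (∀ ω, A' ω ↔ A ω ∧ G (g ω)) ∧ Pe p A / 4 ≤ Pe p A' ∧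
      0 < Pe p A' ∧
      NonConc (Pool.Agent.H49.Ent.cond p A' True) c₁ g r₁ (Real.exp (-((κ - Real.log 2) / 2))) ∧
      NonConc (Pool.Agent.H49.Ent.cond p A' True) c₂ g r₂ (Real.exp (-((κ - Real.log 2) / 2))) := by
  have hlog : 0 < Real.log 2 := Real.log_pos (by norm_num)
  have h2 : Real.exp (-Real.log 2) = 1 / 2 := by
    rw [Real.exp_neg, Real.exp_log (by norm_num)]; norm_num
  obtain ⟨a1, a2⟩ := hs₁.clean hp (by linarith) hA hn₁
    (N := Pop (Pool.Agent.H49.Ent.cond p A True) c₁ g r₁ (Real.exp (-(κ / 2)))) rfl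
  set N₁ := Pop (Pool.Agent.H49.Ent.cond p A True) c₁ g r₁ (Real.exp (-(κ / 2))) with hN₁
  set A₁ : Ω → Prop := fun ω => A ω ∧ ¬ N₁ ω with hA₁
  have b1 := Pe_diff a1
  have hA₁0 : 0 < Pe p A₁ := lt_of_lt_of_le (mul_pos (Real.exp_pos _) hA) b1
  have hs₂' : Stb p (κ - Real.log 2) A₁ (Fn c₂ g r₂) :=
    hs₂.sub (Fn.hered c₂ g r₂) (fun _ h => h.1) b1
  have hn₂' : ¬ Fn c₂ g r₂ A₁ := by
    intro h
    refine hn₂ (hs₂.of_sub (fun ω hω => hω.1 : Sub A₁ A) (le_trans ?_ b1) h)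
    exact mul_le_mul_of_nonneg_right (Real.exp_le_exp.2 (by linarith)) hA.le
  obtain ⟨a3, a4⟩ := hs₂'.clean hp (by linarith) hA₁0 hn₂'
    (N := Pop (Pool.Agent.H49.Ent.cond p A₁ True) c₂ g r₂
      (Real.exp (-((κ - Real.log 2) / 2)))) rfl
  set N₂ := Pop (Pool.Agent.H49.Ent.cond p A₁ True) c₂ g r₂
      (Real.exp (-((κ - Real.log 2) / 2))) with hN₂
  set A₂ : Ω → Prop := fun ω => A₁ ω ∧ ¬ N₂ ω with hA₂
  have b2 := Pe_diff a3
  have hA₂0 : 0 < Pe p A₂ := lt_of_lt_of_le (mul_pos (Real.exp_pos _) hA₁0) b2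
  have hg1 : ∀ ω ω', g ω = g ω' → (N₁ ω ↔ N₁ ω') := by
    intro ω ω' h
    rw [hN₁]
    unfold Pop
    rw [h]
  have hg2 : ∀ ω ω', g ω = g ω' → (N₂ ω ↔ N₂ ω') := by
    intro ω ω' h
    rw [hN₂]
    unfold Pop
    rw [h]
  refine ⟨fun t => ∀ ω, g ω = t → ¬ N₁ ω ∧ ¬ N₂ ω, A₂, ?_, ?_, hA₂0, ?_, a4⟩
  · intro ω
    constructor
    · intro h
      exact ⟨h.1.1, fun ω' h' => ⟨fun h3 => h.1.2 ((hg1 ω' ω h').1 h3),
        fun h3 => h.2 ((hg2 ω' ω h').1 h3)⟩⟩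
    · intro h
      exact ⟨⟨h.1, (h.2 ω rfl).1⟩, (h.2 ω rfl).2⟩
  · rw [h2] at b1 b2
    linarith
  · refine (NonConc.fibres hp hA₁0 hA₂0 (G := fun t => ∀ ω, g ω = t → ¬ N₂ ω) ?_ a2).mono
      (isLaw_cond hp hA₂0) (Real.exp_le_exp.2 (by linarith))
    intro ω
    constructor
    · intro h
      exact ⟨h.1, fun ω' h' h3 => h.2 ((hg2 ω' ω h').1 h3)⟩
    · intro h
      exact ⟨h.1, h.2 ω rfl⟩

end Pool.K2S
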