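import Pool.Agent.H64.K2.Plk3
import Pool.Agent.H35.K2S.FFX2

/-!
# The hypotheses `Spn` of `sum_rows` from nonconcentration at the enhanced points
-/

set_option autoImplicit false

namespace Pool.K2S

open Finset Real
open Pool.Agent.H49.Ent Pool.Agent.H32.Dense Pool.STK Pool.KA

variable {J : ℕ}

namespace FF

/-- The label of `rows_thm` for the planks determines the frame and the cell of the velocity. -/
theorem rlab_plk_det (F : Fam 2 J) (w lam : ℕ) (i₀ : Fin 2) (z : F.Ω → Fin 2 → ℝ) (K i : ℕ) :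
    Det F.p (rlab (F.plk w lam i₀ z) K i) (fun ω => (z ω, F.pvl lam i₀ z ω)) := by
  intro ω ω' _ _ h
  have h1 := (Prod.ext_iff.mp h).1
  have h2 : F.plab w lam i₀ z ω = F.plab w lam i₀ z ω' := (Prod.ext_iff.mp h1).2
  have h3 := (Prod.ext_iff.mp h2).1
  have h4 := (Prod.ext_iff.mp (Prod.ext_iff.mp h3).1).2
  have h5 := (Prod.ext_iff.mp (Prod.ext_iff.mp h3).2).2
  exact Prod.ext h4 h5

/-- **`Spn` for the planks.** -/
theorem plk_spn {ε : Type} (F : Fam 2 J) {w lam hh x1 h : ℕ} (hc : hh + x1 + 4 ≤ h)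
    {i₀ : Fin 2} {z : F.Ω → Fin 2 → ℝ} {E : F.Ω → ε} {K i : ℕ} {ρ : ℝ}
    (h1 : NonConc F.p F.d E (fun D (s : (Fin 2 → ℝ) × (Fin 2 → ℝ)) =>
      ∀ j, |D j - s.1 j * D i₀ - s.2 j| ≤ ((2 : ℝ) ^ (lam + hh))⁻¹) ρ)
    (h2 : NonConc F.p (fun ω => F.d ω i₀) E (fun D (v : ℝ) => |D - v| ≤ ((2 : ℝ) ^ x1)⁻¹) ρ)
    (hE : Det F.p E (rlab (F.plk w lam i₀ z) K i)) :
    Spn 1 h F.p (F.plk w lam i₀ z).d (rlab (F.plk w lam i₀ z) K i) ρ :=
  fun ω hω v B => Plk.strip_conc F hc h1 h2 hE (rlab_plk_det F w lam i₀ z K i) ω hω v B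

/-- **`Spn` for the chart coordinate.** -/
theorem pj_spn {ε κ : Type} {m : ℕ} (F : Fam m J) {w x1 h : ℕ} (hc : x1 + 2 ≤ h)
    {i₀ : Fin m} {S : F.Ω → κ} {E : F.Ω → ε} {K i : ℕ} {ρ : ℝ}
    (h2 : NonConc F.p (fun ω => F.d ω i₀) E (fun D (v : ℝ) => |D - v| ≤ ((2 : ℝ) ^ x1)⁻¹) ρ)
    (hE : Det F.p E (rlab (F.pj i₀ w S) K i)) :
    Spn 0 h F.p (F.pj i₀ w S).d (rlab (F.pj i₀ w S) K i) ρ := by
  intro ω hω v B
  have h := Plk.interval_conc F (w := w) (Sd := S) hc h2 hE ω hω v B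
  refine le_of_eq_of_le (Finset.sum_congr rfl fun ω' _ => ?_) h
  congr 1

end FF

end Pool.K2S
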